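import Pool.Agent.H34.KA.TYA
import Pool.Agent.H85.TG.RES

/-!
# Times with live windows: from windows which are live in the mean (LIV)
-/

set_option autoImplicit false

namespace Pool.KA.Liv

open Finset Real
open Pool.Agent.H49.Ent Pool.Agent.H32.Dense Pool.STK

variable {m J : ℕ}

/-- The mean is the average of the conditional means. -/
theorem ex_sum {Ω κ : Type} [Fintype Ω] [Fintype κ] {p : Ω → ℝ} (hp : ∀ ω, 0 ≤ p ω)
    (A : Ω → κ) (f : Ω → ℝ) : Ex p f = ∑ a, law p A a * Ex (cond p A a) f := by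
  classical
  have h1 : ∀ a, law p A a * Ex (cond p A a) f = ∑ ω, if A ω = a then p ω * f ω else 0 := by
    intro a
    unfold Ex
    rw [Finset.mul_sum]
    refine Finset.sum_congr rfl fun ω _ => ?_
    unfold Pool.Agent.H49.Ent.cond
    split_ifs with h
    · by_cases h0 : p ω = 0
      · rw [h0]
        ring
      · have hω : 0 < p ω := lt_of_le_of_ne (hp ω) (Ne.symm h0)
        have h2 : 0 < law p A a := by rw [← h]; exact law_pos hp A hω
        field_simp
    · ring
  rw [Finset.sum_congr rfl fun a _ => h1 a, Finset.sum_comm]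
  unfold Ex
  refine Finset.sum_congr rfl fun ω _ => ?_
  rw [Finset.sum_ite_eq univ (A ω), if_pos (Finset.mem_univ (A ω))]

/-- The relative entropy is not negative. -/
theorem kl_nonneg {F : Fam m J} {μ : F.Ω → ℕ → ℝ} (h : F.Ker μ) : 0 ≤ F.kl μ := by
  have h0 : 0 ≤ F.klv μ 0 := by
    have h1 := CH_le_ker F.isLaw.nonneg F.isLaw.sum_one (F.T1 0) (fun ω => (F.l ω, F.Z ω))
      (fun ω s => if s = 0 then pm (μ ω) J 0 0 else 0) ?_ ?_ ?_ ?_
    · have e0 : ∀ ω, F.T1 0 ω = 0 := by
        intro ω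
        rw [F.T1_eq, Nat.sub_zero]
        exact Nat.div_eq_of_lt (F.tim ω)
      have e1 : Ex F.p (fun ω => -Real.log (if F.T1 0 ω = 0 then pm (μ ω) J 0 0 else 0)) =
          Ex F.p (fun ω => -Real.log (pm (μ ω) J 0 (F.T ω))) :=
        Ex_congr_pos F.isLaw.nonneg fun ω _ => by
          rw [if_pos (e0 ω)]
          congr 2
          refine pm_congr _ _ _ ?_
          rw [Nat.sub_zero, Nat.div_eq_of_lt (F.tim ω), Nat.zero_div]
      unfold Fam.klv
      rw [e1] at h1
      linarith
    · intro ω ω' hω hω' e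
      have h2 : μ ω = μ ω' := h.det ω ω' hω hω' e
      funext t
      simp only [h2]
    · intro ω hω
      have e0 : F.T1 0 ω = 0 := by
        rw [F.T1_eq, Nat.sub_zero]
        exact Nat.div_eq_of_lt (F.tim ω)
      simp only [if_pos e0]
      have h3 := h.pm_pos hω 0
      have h4 : pm (μ ω) J 0 (F.T ω) = pm (μ ω) J 0 0 := by
        refine pm_congr _ _ _ ?_
        rw [Nat.sub_zero, Nat.div_eq_of_lt (F.tim ω), Nat.zero_div]
      rw [← h4]
      exact h3
    · intro ω t
      split_ifs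
      · exact pm_nonneg (h.nonneg ω) _ _ _
      · exact le_rfl
    · intro ω _ G
      have h5 : ∑ x ∈ G, (if x = 0 then pm (μ ω) J 0 0 else 0) ≤ pm (μ ω) J 0 0 := by
        rw [Finset.sum_ite_eq' G 0 (fun _ => pm (μ ω) J 0 0)]
        split_ifs
        · exact le_rfl
        · exact pm_nonneg (h.nonneg ω) _ _ _
      refine h5.trans ?_
      rw [pm_eq, Nat.sub_zero, Nat.zero_div]
      unfold lowk
      simp only [zero_mul, zero_add]
      exact h.sum ω
  have h2 := h.klv_mono (Nat.zero_le J) le_rfl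
  rw [F.klv_top] at h2
  linarith

/-- The relative entropies of the types. -/
theorem kl_res {F : Fam m J} {μ : F.Ω → ℕ → ℝ} (hK : F.Ker μ) {κ : Type} [Fintype κ]
    (A : F.Ω → κ) {a : κ} (h : IsLaw (cond F.p A a)) :
    law F.p A a * (F.res A a h).kl μ ≤ F.kl μ + Real.log (Fintype.card κ) := by
  classical
  have hp := F.isLaw.nonneg
  have hlaw : ∀ b, law F.p A b ≠ 0 → IsLaw (cond F.p A b) := fun b hb =>
    ⟨cond_nonneg hp A b, sum_cond F.p A hb⟩
  have hlaw0 : ∀ b, 0 ≤ law F.p A b := fun b => law_nonneg hp A b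
  obtain ⟨g, hg⟩ : ∃ g : κ → ℝ, g = fun b => Ex (cond F.p A b) (fun ω =>
      -Real.log (μ ω (F.T ω))) - CH (cond F.p A b) F.T (fun ω => (F.l ω, F.Z ω)) := ⟨_, rfl⟩
  have hg0 : ∀ b, 0 ≤ law F.p A b * g b := by
    intro b
    rcases (hlaw0 b).eq_or_lt with hb | hb
    · rw [← hb, zero_mul]
    · refine mul_nonneg hb.le ?_
      have h1 := kl_nonneg (hK.res A b (hlaw b hb.ne'))
      rw [hg]
      exact h1
  have h1 : ∑ b, law F.p A b * g b = Ex F.p (fun ω => -Real.log (μ ω (F.T ω))) -
      CH F.p F.T (fun ω => (A ω, (F.l ω, F.Z ω))) := by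
    rw [tya_CH_sum hp, ex_sum hp A, ← Finset.sum_sub_distrib]
    refine Finset.sum_congr rfl fun b _ => ?_
    rw [hg]
    ring
  have h2 := (tya_CH_le F.isLaw F.T (fun ω => (F.l ω, F.Z ω)) A).2
  have h3 : law F.p A a * g a ≤ ∑ b, law F.p A b * g b :=
    Finset.single_le_sum (f := fun b => law F.p A b * g b) (fun b _ => hg0 b)
      (Finset.mem_univ a)
  have h4 : (F.res A a h).kl μ = g a := by
    rw [hg]
    rfl
  rw [h4]
  unfold Fam.kl
  linarith

theorem nbad_mono (μ : ℕ → ℝ) (K : ℕ) (η : ℝ) (t a b : ℕ) (hb : b ≤ J) :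
    nbad μ J K η t a b ≤ nbad μ J K η t 0 J := by
  classical
  unfold nbad
  refine Finset.card_le_card fun v hv => ?_
  rw [Finset.mem_filter, Finset.mem_Ico] at hv ⊢
  exact ⟨⟨Nat.zero_le v, hv.1.2.trans_le hb⟩, hv.2⟩

/-- **(LIV)** From windows which are live in the mean. -/
theorem tg_liv : TGVStmt := by
  classical
  intro m J F s μ K η n e δ hn hδ hδ2 hK hs hkl hbad
  have hp := F.isLaw.nonneg
  obtain ⟨A, hA⟩ : ∃ A : F.Ω → Prop, A = fun ω => (nbad (μ ω) J K η (F.T ω) 0 J : ℝ) ≤ n :=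
    ⟨_, rfl⟩
  -- Markov
  have hlaw : 1 - δ ≤ law F.p A True := by
    have h1 : n * (1 - law F.p A True) ≤
        Ex F.p (fun ω => (nbad (μ ω) J K η (F.T ω) 0 J : ℝ)) := by
      have e1 : 1 - law F.p A True = ∑ ω, (if A ω then 0 else F.p ω) := by
        rw [← F.isLaw.sum_one]
        unfold law
        rw [← Finset.sum_sub_distrib]
        refine Finset.sum_congr rfl fun ω _ => ?_
        by_cases h : A ω
        · simp [h]
        · simp [h]
      rw [e1, Finset.mul_sum]
      unfold Ex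
      refine Finset.sum_le_sum fun ω _ => ?_
      split_ifs with h
      · rw [mul_zero]
        exact mul_nonneg (hp ω) (Nat.cast_nonneg _)
      · rw [mul_comm]
        refine mul_le_mul_of_nonneg_left ?_ (hp ω)
        rw [hA] at h
        exact (not_le.1 h).le
    have h2 : n * (1 - law F.p A True) ≤ n * δ := by linarith [mul_comm δ n]
    have h3 := le_of_mul_le_mul_left h2 hn
    linarith
  have hpos : 0 < law F.p A True := by linarith
  have hcl : IsLaw (cond F.p A True) := ⟨cond_nonneg hp A True, sum_cond F.p A hpos.ne'⟩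
  refine ⟨A, hlaw, hcl, μ, hK.res A True hcl, fun h => Det.res' (hs h) A True hcl, ?_, ?_⟩
  · intro ω hω a b hab hb
    have h1 : A ω := by
      have := ((cond_pos_iff hp A True ω).1 hω).2
      simpa using this
    rw [hA] at h1
    have h2 : (nbad (μ ω) J K η (F.T ω) a b : ℝ) ≤ (nbad (μ ω) J K η (F.T ω) 0 J : ℝ) := by
      exact_mod_cast nbad_mono (μ ω) K η (F.T ω) a b hb
    have h3 : (nbad (μ ω) J K η (F.T ω) a b : ℝ) ≤ n + 0 * ((b : ℝ) - a) := by
      rw [zero_mul, add_zero]
      exact h2.trans h1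
    exact h3
  · have h1 := kl_res hK A hcl
    have h2 : Fintype.card Prop = 2 := Fintype.card_prop
    rw [h2] at h1
    push_cast at h1
    have h3 : 0 ≤ (F.res A True hcl).kl μ := kl_nonneg (hK.res A True hcl)
    have h4 : (1 / 2 : ℝ) * (F.res A True hcl).kl μ ≤ law F.p A True * (F.res A True hcl).kl μ :=
      mul_le_mul_of_nonneg_right (by linarith) h3
    linarith

end Pool.KA.Liv
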