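import Pool.Agent.H40.TG.NbrB

/-!
# From atoms to neighbours (NBR)
-/

set_option autoImplicit false

namespace Pool.KA.Nbr

open Finset Real
open Pool.Agent.H49.Ent Pool.Agent.H32.Dense Pool.STK

variable {m J : ℕ}

theorem klv_nonneg {F : Fam m J} {μ : F.Ω → ℕ → ℝ} (h : F.Ker μ) {v : ℕ} (hv : v ≤ J) :
    0 ≤ F.klv μ v := by
  have h0 : 0 ≤ F.klv μ 0 := by
    have h1 := CH_le_ker F.isLaw.nonneg F.isLaw.sum_one (F.T1 0) (fun ω => (F.l ω, F.Z ω))
      (fun ω s => if s = 0 then pm (μ ω) J 0 0 else 0) ?_ ?_ ?_ ?_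
    · have e0 : ∀ ω, F.T1 0 ω = 0 := by
        intro ω
        rw [F.T1_eq, Nat.sub_zero]
        exact Nat.div_eq_of_lt (F.tim ω)
      have e1 : Ex F.p (fun ω => -Real.log (if F.T1 0 ω = 0 then pm (μ ω) J 0 0 else 0)) =
          Ex F.p (fun ω => -Real.log (pm (μ ω) J 0 (F.T ω))) :=
        Ex_congr_pos F.isLaw.nonneg fun ω _ => by
          rw [if_pos (e0 ω)]
          congr 2
          refine pm_congr _ _ _ ?_
          rw [Nat.sub_zero, Nat.div_eq_of_lt (F.tim ω), Nat.zero_div]
      unfold Fam.klv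
      rw [e1] at h1
      linarith
    · intro ω ω' hω hω' e
      have h2 : μ ω = μ ω' := h.det ω ω' hω hω' e
      funext t
      simp only [h2]
    · intro ω hω
      have e0 : F.T1 0 ω = 0 := by
        rw [F.T1_eq, Nat.sub_zero]
        exact Nat.div_eq_of_lt (F.tim ω)
      simp only [if_pos e0]
      have h3 := h.pm_pos hω 0
      have h4 : pm (μ ω) J 0 (F.T ω) = pm (μ ω) J 0 0 := by
        refine pm_congr _ _ _ ?_
        rw [Nat.sub_zero, Nat.div_eq_of_lt (F.tim ω), Nat.zero_div]
      rw [← h4]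
      exact h3
    · intro ω t
      split_ifs
      · exact pm_nonneg (h.nonneg ω) _ _ _
      · exact le_rfl
    · intro ω _ G
      have h5 : ∑ x ∈ G, (if x = 0 then pm (μ ω) J 0 0 else 0) ≤ pm (μ ω) J 0 0 := by
        rw [Finset.sum_ite_eq' G 0 (fun _ => pm (μ ω) J 0 0)]
        split_ifs
        · exact le_rfl
        · exact pm_nonneg (h.nonneg ω) _ _ _
      refine h5.trans ?_
      rw [pm_eq, Nat.sub_zero, Nat.zero_div]
      unfold lowk
      simp only [zero_mul, zero_add]
      exact h.sum ω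
  exact h0.trans (h.klv_mono (Nat.zero_le v) hv)

/-- Telescoping sums of increments. -/
theorem tele (φ : ℕ → ℝ) (J L N : ℕ) (hN : N + L ≤ J + 1) (hmono : ∀ v v', v ≤ v' → v' ≤ J →
    φ v ≤ φ v') (h0 : 0 ≤ φ 0) : ∑ v ∈ range N, (φ (v + L) - φ v) ≤ L * φ J := by
  induction L with
  | zero => simp
  | succ L ih =>
    have ih' := ih (by omega)
    have e : ∀ v, φ (v + (L + 1)) - φ v = (φ (v + L) - φ v) + (φ (v + 1 + L) - φ (v + L)) := by
      intro v
      have : v + (L + 1) = v + 1 + L := by ring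
      rw [this]
      ring
    simp_rw [e]
    rw [Finset.sum_add_distrib]
    have h1 : ∑ v ∈ range N, (φ (v + 1 + L) - φ (v + L)) = φ (N + L) - φ (0 + L) :=
      Finset.sum_range_sub (fun v => φ (v + L)) N
    rw [h1, zero_add]
    have h2 : φ (N + L) ≤ φ J := hmono _ _ (by omega) le_rfl
    have h3 : 0 ≤ φ L := h0.trans (hmono _ _ (Nat.zero_le L) (by omega))
    push_cast
    linarith

open Classical in
/-- The dead blocks of a path. -/
def dd (μ : ℕ → ℝ) (J K : ℕ) (c : ℝ) (t i : ℕ) : Prop :=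
  (1 - c) * pm μ J (i * K) t < pm μ J ((i + 1) * K) t

open Classical in
/-- Along live blocks the mass decreases. -/
theorem dec (μ : ℕ → ℝ) (hμ : ∀ t, 0 ≤ μ t) (J K t a : ℕ) (c : ℝ) (hc : c ≤ 1) (j : ℕ) :
    pm μ J ((a + j) * K) t ≤
      (1 - c) ^ ((Ico a (a + j)).filter fun i => ¬ dd μ J K c t i).card * pm μ J (a * K) t := by
  induction j with
  | zero => simp
  | succ j ih =>
    have e : Ico a (a + (j + 1)) = insert (a + j) (Ico a (a + j)) := by
      ext x
      simp only [Finset.mem_Ico, Finset.mem_insert]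
      omega
    have hn : a + j ∉ (Ico a (a + j)).filter fun i => ¬ dd μ J K c t i := by
      simp
    have h1c : 0 ≤ 1 - c := by linarith
    rw [e, Finset.filter_insert]
    split_ifs with h
    · refine le_trans ?_ ih
      exact pm_anti hμ J t (Nat.mul_le_mul_right K (by omega))
    · rw [Finset.card_insert_of_notMem hn, pow_succ']
      unfold dd at h
      have h2 := not_lt.1 h
      have e2 : a + j + 1 = a + (j + 1) := by ring
      rw [e2] at h2
      refine h2.trans ?_
      rw [mul_assoc]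
      exact mul_le_mul_of_nonneg_left ih h1c

/-- The windows which meet too many dead blocks. -/
theorem cnt_bad (D : ℕ → Prop) [DecidablePred D] (J K R : ℕ) (hK : 1 ≤ K) (hR : 1 ≤ R) :
    (((range J).filter fun v => v + (2 * R + 1) * K ≤ J ∧
      R < ((Ico ((v + K - 1) / K) ((v + K - 1) / K + 2 * R)).filter D).card).card : ℝ) ≤
      2 * K * ((range (J / K)).filter D).card := by
  classical
  obtain ⟨V, hV⟩ : ∃ V, V = (range J).filter fun v => v + (2 * R + 1) * K ≤ J ∧
      R < ((Ico ((v + K - 1) / K) ((v + K - 1) / K + 2 * R)).filter D).card := ⟨_, rfl⟩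
  rw [← hV]
  -- double count
  have h1 : V.card * (R + 1) ≤ ∑ v ∈ V,
      ((Ico ((v + K - 1) / K) ((v + K - 1) / K + 2 * R)).filter D).card := by
    rw [← smul_eq_mul]
    refine Finset.card_nsmul_le_sum _ _ _ fun v hv => ?_
    rw [hV] at hv
    exact (Finset.mem_filter.1 hv).2.2
  have h2 : ∑ v ∈ V, ((Ico ((v + K - 1) / K) ((v + K - 1) / K + 2 * R)).filter D).card ≤
      ∑ i ∈ (range (J / K)).filter D, (V.filter fun v => (v + K - 1) / K ≤ i ∧
        i < (v + K - 1) / K + 2 * R).card := by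
    have e1 : ∀ v ∈ V, ((Ico ((v + K - 1) / K) ((v + K - 1) / K + 2 * R)).filter D).card ≤
        ∑ i ∈ (range (J / K)).filter D, (if (v + K - 1) / K ≤ i ∧
          i < (v + K - 1) / K + 2 * R then 1 else 0) := by
      intro v hv
      rw [← Finset.card_filter]
      refine Finset.card_le_card fun i hi => ?_
      obtain ⟨hi1, hi2⟩ := Finset.mem_filter.1 hi
      rw [Finset.mem_Ico] at hi1
      rw [hV] at hv
      have hv2 := (Finset.mem_filter.1 hv).2.1
      refine Finset.mem_filter.2 ⟨Finset.mem_filter.2 ⟨?_, hi2⟩, hi1⟩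
      rw [Finset.mem_range, Nat.lt_iff_add_one_le, Nat.le_div_iff_mul_le (by omega)]
      have h3 : (v + K - 1) / K * K ≤ v + K - 1 := Nat.div_mul_le_self _ _
      have h4 : (i + 1) * K ≤ ((v + K - 1) / K + 2 * R) * K := Nat.mul_le_mul_right K (by omega)
      have h5 : ((v + K - 1) / K + 2 * R) * K = (v + K - 1) / K * K + 2 * R * K := by ring
      have h6 : (2 * R + 1) * K = 2 * R * K + K := by ring
      omega
    refine (Finset.sum_le_sum e1).trans (le_of_eq ?_)
    rw [Finset.sum_comm]
    refine Finset.sum_congr rfl fun i _ => ?_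
    rw [Finset.card_filter]
  have h3 : ∀ i ∈ (range (J / K)).filter D, (V.filter fun v => (v + K - 1) / K ≤ i ∧
        i < (v + K - 1) / K + 2 * R).card ≤ 2 * R * K := by
    intro i _
    have hsub : (V.filter fun v => (v + K - 1) / K ≤ i ∧ i < (v + K - 1) / K + 2 * R) ⊆
        Finset.Ico (i * K + 1 - 2 * R * K) (i * K + 1) := by
      intro v hv
      obtain ⟨-, h4, h5⟩ := Finset.mem_filter.1 hv
      rw [Finset.mem_Ico]
      have h6 : v + K - 1 < (i + 1) * K := by
        have := (Nat.div_lt_iff_lt_mul (by omega : 0 < K)).1 (Nat.lt_succ_of_le h4)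
        exact this
      have h7 : (i + 1) * K = i * K + K := by ring
      have h8 : (v + K - 1) / K * K ≤ v + K - 1 := Nat.div_mul_le_self _ _
      have h9 : (i + 1) * K ≤ ((v + K - 1) / K + 2 * R) * K := Nat.mul_le_mul_right K (by omega)
      have h10 : ((v + K - 1) / K + 2 * R) * K = (v + K - 1) / K * K + 2 * R * K := by ring
      constructor
      · omega
      · omega
    refine (Finset.card_le_card hsub).trans ?_
    rw [Nat.card_Ico]
    omega
  have h4 := Finset.sum_le_card_nsmul _ _ _ h3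
  rw [smul_eq_mul] at h4
  have h5 : V.card * (R + 1) ≤ ((range (J / K)).filter D).card * (2 * R * K) :=
    (h1.trans h2).trans h4
  have h6 : (V.card : ℝ) * (R + 1) ≤ ((range (J / K)).filter D).card * (2 * R * K) := by
    exact_mod_cast h5
  have h7 : (0 : ℝ) ≤ ((range (J / K)).filter D).card := Nat.cast_nonneg _
  have hR0 : (0 : ℝ) < (R : ℝ) + 1 := by positivity
  refine le_of_mul_le_mul_right ?_ hR0
  refine h6.trans ?_
  have h8 : (0 : ℝ) ≤ 2 * K * ((range (J / K)).filter D).card := by positivity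
  nlinarith

open Classical in
/-- **(NBR)** From atoms to neighbours. -/
theorem tg_nbr : TGNStmt := by
  intro m J F μ K R c η η' n e ρ hK1 hR1 hc hc1 hη hρ hη' hK hkl hn
  have hp := F.isLaw.nonneg
  obtain ⟨L, hL⟩ : ∃ L, L = (2 * R + 1) * K := ⟨_, rfl⟩
  have h1c : 0 ≤ 1 - c := by linarith
  have h1c1 : 1 - c ≤ 1 := by linarith
  have hη'0 : 0 ≤ η' := (pow_nonneg h1c R).trans hη'
  have hkl0 : 0 ≤ F.kl μ := Pool.KA.Liv.kl_nonneg hK
  have he0 : 0 ≤ e := hkl0.trans hkl
  have hn0 : 0 ≤ n := le_trans (Finset.sum_nonneg fun ω _ =>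
    mul_nonneg (hp ω) (Nat.cast_nonneg _)) hn
  -- the windows
  obtain ⟨W, hW⟩ : ∃ W, W = (range J).filter fun v => v + L ≤ J := ⟨_, rfl⟩
  have hWJ : (W.card : ℝ) ≤ J := by
    have : W.card ≤ J := by
      rw [hW]
      refine (Finset.card_filter_le _ _).trans ?_
      rw [Finset.card_range]
    exact_mod_cast this
  -- first step
  have h1 : Ex F.p (fun ω => (nbad (μ ω) J ((2 * R + 1) * K) η (F.T ω) 0 J : ℝ)) ≤
      (∑ v ∈ W, Ex F.p (fun ω => pn (μ ω) J v L (F.T ω) / pm (μ ω) J v (F.T ω))) / η := by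
    have e1 : (∑ v ∈ W, Ex F.p (fun ω => pn (μ ω) J v L (F.T ω) / pm (μ ω) J v (F.T ω))) / η =
        Ex F.p (fun ω => ∑ v ∈ W, pn (μ ω) J v L (F.T ω) / pm (μ ω) J v (F.T ω) / η) := by
      unfold Ex
      rw [Finset.sum_comm, Finset.sum_div]
      refine Finset.sum_congr rfl fun ω _ => ?_
      rw [← Finset.mul_sum, mul_div_assoc, Finset.sum_div]
    rw [e1]
    refine Ex_mono hp fun ω hω => ?_
    unfold nbad
    rw [← hL, ← Nat.Ico_zero_eq_range] at *
    have e2 : (Ico 0 J).filter (fun v => v + L ≤ J ∧ η * pm (μ ω) J v (F.T ω) <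
        pn (μ ω) J v L (F.T ω)) = W.filter (fun v => η * pm (μ ω) J v (F.T ω) <
        pn (μ ω) J v L (F.T ω)) := by
      rw [hW, Finset.filter_filter]
    rw [e2, Finset.card_filter]
    push_cast
    refine Finset.sum_le_sum fun v _ => ?_
    have hpm := hK.pm_pos hω v
    have hpn := pn_nonneg (hK.nonneg ω) J v L (F.T ω)
    split_ifs with h
    · rw [div_div, le_div_iff₀ (by positivity)]
      linarith
    · positivity
  -- the sum over the windows
  have h2 : ∑ v ∈ W, Ex F.p (fun ω => pn (μ ω) J v L (F.T ω) / pm (μ ω) J v (F.T ω)) ≤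
      ∑ v ∈ W, (3 * Ex F.p (fun ω => pm (μ ω) J (v + L) (F.T ω) / pm (μ ω) J v (F.T ω)) +
      4 * (ρ + (F.klv μ (v + L) - F.klv μ v) / ρ)) := by
    refine Finset.sum_le_sum fun v hv => ?_
    rw [hW] at hv
    exact one_win F hK (Finset.mem_filter.1 hv).2 hρ
  -- the masses
  have h3 : ∑ v ∈ W, Ex F.p (fun ω => pm (μ ω) J (v + L) (F.T ω) / pm (μ ω) J v (F.T ω)) ≤
      η' * J + 2 * K * n := by
    have e1 : ∑ v ∈ W, Ex F.p (fun ω => pm (μ ω) J (v + L) (F.T ω) / pm (μ ω) J v (F.T ω)) =
        Ex F.p (fun ω => ∑ v ∈ W, pm (μ ω) J (v + L) (F.T ω) / pm (μ ω) J v (F.T ω)) := by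
      unfold Ex
      rw [Finset.sum_comm]
      refine Finset.sum_congr rfl fun ω _ => ?_
      rw [Finset.mul_sum]
    rw [e1]
    have e2 : Ex F.p (fun ω => ∑ v ∈ W, pm (μ ω) J (v + L) (F.T ω) / pm (μ ω) J v (F.T ω)) ≤
        Ex F.p (fun ω => η' * J + 2 * K * ((range (J / K)).filter fun i =>
          (1 - c) * pm (μ ω) J (i * K) (F.T ω) < pm (μ ω) J ((i + 1) * K) (F.T ω)).card) := by
      refine Ex_mono hp fun ω hω => ?_
      have a1 : ∀ v ∈ W, pm (μ ω) J (v + L) (F.T ω) / pm (μ ω) J v (F.T ω) ≤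
          η' + (if R < ((Ico ((v + K - 1) / K) ((v + K - 1) / K + 2 * R)).filter
            (dd (μ ω) J K c (F.T ω))).card then 1 else 0) := by
        intro v hv
        have hpm := hK.pm_pos hω v
        have hvL : v + L ≤ J := by
          rw [hW] at hv
          exact (Finset.mem_filter.1 hv).2
        split_ifs with h
        · have b1 : pm (μ ω) J (v + L) (F.T ω) / pm (μ ω) J v (F.T ω) ≤ 1 := by
            rw [div_le_one hpm]
            exact pm_anti (hK.nonneg ω) J _ (Nat.le_add_right v L)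
          linarith
        · rw [add_zero, div_le_iff₀ hpm]
          obtain ⟨a, ha⟩ : ∃ a, a = (v + K - 1) / K := ⟨_, rfl⟩
          rw [← ha] at h
          have b1 := dec (μ ω) (hK.nonneg ω) J K (F.T ω) a c hc1 (2 * R)
          have b2 : pm (μ ω) J (v + L) (F.T ω) ≤ pm (μ ω) J ((a + 2 * R) * K) (F.T ω) := by
            refine pm_anti (hK.nonneg ω) J _ ?_
            have c1 : a * K ≤ v + K - 1 := by rw [ha]; exact Nat.div_mul_le_self _ _
            have c2 : (a + 2 * R) * K = a * K + 2 * R * K := by ring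
            have c3 : L = 2 * R * K + K := by rw [hL]; ring
            omega
          have b3 : pm (μ ω) J (a * K) (F.T ω) ≤ pm (μ ω) J v (F.T ω) := by
            refine pm_anti (hK.nonneg ω) J _ ?_
            have c1 := Nat.lt_mul_div_succ (v + K - 1) (by omega : 0 < K)
            rw [← ha] at c1
            have c2 : K * (a + 1) = a * K + K := by ring
            omega
          have b4 : R ≤ ((Ico a (a + 2 * R)).filter fun i => ¬ dd (μ ω) J K c (F.T ω) i).card := by
            have c1 := Finset.card_filter_add_card_filter_not (s := Ico a (a + 2 * R))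
              (dd (μ ω) J K c (F.T ω))
            rw [Nat.card_Ico] at c1
            omega
          have b5 : (1 - c) ^ ((Ico a (a + 2 * R)).filter fun i =>
              ¬ dd (μ ω) J K c (F.T ω) i).card ≤ (1 - c) ^ R := pow_le_pow_of_le_one h1c h1c1 b4
          calc pm (μ ω) J (v + L) (F.T ω) ≤ _ := b2
            _ ≤ _ := b1
            _ ≤ η' * pm (μ ω) J v (F.T ω) := by
              exact mul_le_mul (b5.trans hη') b3 (pm_nonneg (hK.nonneg ω) _ _ _) hη'0
      refine (Finset.sum_le_sum a1).trans ?_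
      rw [Finset.sum_add_distrib, Finset.sum_const, nsmul_eq_mul, ← Finset.sum_filter,
        Finset.sum_const, nsmul_eq_mul, mul_one]
      have a2 := cnt_bad (dd (μ ω) J K c (F.T ω)) J K R hK1 hR1
      have a3 : W.filter (fun v => R < ((Ico ((v + K - 1) / K) ((v + K - 1) / K + 2 * R)).filter
            (dd (μ ω) J K c (F.T ω))).card) = (range J).filter fun v =>
          v + (2 * R + 1) * K ≤ J ∧ R < ((Ico ((v + K - 1) / K)
            ((v + K - 1) / K + 2 * R)).filter (dd (μ ω) J K c (F.T ω))).card := by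
        rw [hW, Finset.filter_filter, hL]
      rw [a3]
      have a4 : (W.card : ℝ) * η' ≤ η' * J := by
        rw [mul_comm]
        exact mul_le_mul_of_nonneg_left hWJ hη'0
      exact add_le_add a4 a2
    refine e2.trans ?_
    have e3 : Ex F.p (fun ω => η' * J + 2 * K * ((range (J / K)).filter fun i =>
          (1 - c) * pm (μ ω) J (i * K) (F.T ω) < pm (μ ω) J ((i + 1) * K) (F.T ω)).card) =
        η' * J + 2 * K * Ex F.p (fun ω => (((range (J / K)).filter fun i =>
          (1 - c) * pm (μ ω) J (i * K) (F.T ω) < pm (μ ω) J ((i + 1) * K) (F.T ω)).card : ℝ)) := by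
      unfold Ex
      simp_rw [mul_add, Finset.sum_add_distrib]
      rw [← Finset.sum_mul, F.isLaw.sum_one, one_mul, Finset.mul_sum]
      congr 1
      refine Finset.sum_congr rfl fun ω _ => ?_
      ring
    rw [e3]
    have := mul_le_mul_of_nonneg_left hn (by positivity : (0 : ℝ) ≤ 2 * K)
    linarith
  -- the relative entropies
  have h4 : ∑ v ∈ W, (F.klv μ (v + L) - F.klv μ v) ≤ L * e := by
    by_cases hLJ : L ≤ J
    · have e1 : W ⊆ range (J + 1 - L) := by
        intro v hv
        rw [hW] at hv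
        have := (Finset.mem_filter.1 hv).2
        rw [Finset.mem_range]
        omega
      have e2 : ∑ v ∈ W, (F.klv μ (v + L) - F.klv μ v) ≤
          ∑ v ∈ range (J + 1 - L), (F.klv μ (v + L) - F.klv μ v) := by
        refine Finset.sum_le_sum_of_subset_of_nonneg e1 fun v hv _ => ?_
        rw [Finset.mem_range] at hv
        have := hK.klv_mono (Nat.le_add_right v L) (by omega)
        linarith
      refine e2.trans ?_
      have e3 := tele (F.klv μ) J L (J + 1 - L) (by omega)
        (fun v v' h h' => hK.klv_mono h h') (klv_nonneg hK (Nat.zero_le J))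
      rw [F.klv_top] at e3
      exact e3.trans (mul_le_mul_of_nonneg_left hkl (Nat.cast_nonneg L))
    · have e1 : W = ∅ := by
        rw [hW, Finset.filter_eq_empty_iff]
        intro v _
        omega
      rw [e1, Finset.sum_empty]
      positivity
  -- the end
  have h5 : ∑ v ∈ W, (3 * Ex F.p (fun ω => pm (μ ω) J (v + L) (F.T ω) / pm (μ ω) J v (F.T ω)) +
      4 * (ρ + (F.klv μ (v + L) - F.klv μ v) / ρ)) ≤
      3 * (η' * J + 2 * K * n) + 4 * (ρ * J + L * e / ρ) := by
    rw [Finset.sum_add_distrib, ← Finset.mul_sum, ← Finset.mul_sum, Finset.sum_add_distrib,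
      Finset.sum_const, nsmul_eq_mul, ← Finset.sum_div]
    have e1 : (W.card : ℝ) * ρ ≤ ρ * J := by
      rw [mul_comm]
      exact mul_le_mul_of_nonneg_left hWJ hρ.le
    have e2 := div_le_div_of_nonneg_right h4 hρ.le
    linarith
  refine h1.trans (div_le_div_of_nonneg_right ((h2.trans h5).trans (le_of_eq ?_)) hη.le)
  rw [hL]
  push_cast
  ring

end Pool.KA.Nbr
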