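import Pool.Agent.H85.TG.Ker

/-!
# Kernels and neighbours (pure part of NBR)
-/

set_option autoImplicit false

namespace Pool.KA.Nbr

open Finset Real
open Pool.Agent.H49.Ent Pool.Agent.H32.Dense Pool.STK

variable {Ω 𝒰 : Type} [Fintype Ω]

/-- The conditional law of `S` given `U`. -/
noncomputable def nu (p : Ω → ℝ) (S : Ω → ℕ) (U : Ω → 𝒰) (ω : Ω) (s : ℕ) : ℝ :=
  law (cond p U (U ω)) S s

theorem nu_eq (p : Ω → ℝ) (S : Ω → ℕ) (U : Ω → 𝒰) (ω : Ω) (s : ℕ) :
    nu p S U ω s = law p (fun ω => (S ω, U ω)) (s, U ω) / law p U (U ω) := law_cond _ _ _ _ _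

theorem nu_nonneg {p : Ω → ℝ} (hp : ∀ ω, 0 ≤ p ω) (S : Ω → ℕ) (U : Ω → 𝒰) (ω : Ω) (s : ℕ) :
    0 ≤ nu p S U ω s := by
  rw [nu_eq]
  exact div_nonneg (law_nonneg hp _ _) (law_nonneg hp _ _)

theorem nu_pos {p : Ω → ℝ} (hp : ∀ ω, 0 ≤ p ω) (S : Ω → ℕ) (U : Ω → 𝒰) {ω : Ω} (hω : 0 < p ω) :
    0 < nu p S U ω (S ω) := by
  rw [nu_eq]
  exact div_pos (law_pos hp (fun ω => (S ω, U ω)) hω) (law_pos hp U hω)

/-- If the conditional law is positive, then the value occurs. -/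
theorem nu_occ {p : Ω → ℝ} (hp : ∀ ω, 0 ≤ p ω) (S : Ω → ℕ) (U : Ω → 𝒰) {ω : Ω} {s : ℕ}
    (h : 0 < nu p S U ω s) : ∃ ω', 0 < p ω' ∧ U ω' = U ω ∧ S ω' = s := by
  classical
  by_contra hcon
  push Not at hcon
  have : nu p S U ω s = 0 := by
    unfold nu law
    refine Finset.sum_eq_zero fun ω' _ => ?_
    split_ifs with h1
    · unfold Pool.Agent.H49.Ent.cond
      split_ifs with h2
      · rcases (hp ω').eq_or_lt with h3 | h3
        · rw [← h3, zero_div]
        · exact absurd h1 (hcon ω' h3 h2)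
      · rfl
    · rfl
  linarith

theorem tower {p : Ω → ℝ} (hp : ∀ ω, 0 ≤ p ω) (S : Ω → ℕ) (U : Ω → 𝒰) {G : Finset ℕ}
    (hS : ∀ ω, S ω ∈ G) {f : Ω → ℕ → ℝ} (hd : Det p U f) :
    Ex p (fun ω => ∑ s ∈ G, nu p S U ω s * f ω s) = Ex p (fun ω => f ω (S ω)) := by
  classical
  have h1 : ∀ ω, ∑ s ∈ G, nu p S U ω s * f ω s =
      ∑ ω', cond p U (U ω) ω' * f ω (S ω') := by
    intro ω
    unfold nu law
    simp_rw [Finset.sum_mul]
    rw [Finset.sum_comm]
    refine Finset.sum_congr rfl fun ω' _ => ?_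
    rw [Finset.sum_eq_single (S ω')]
    · rw [if_pos rfl]
    · intro s _ hs
      rw [if_neg (fun h => hs h.symm), zero_mul]
    · intro h
      exact absurd (hS ω') h
  unfold Ex
  simp_rw [h1, Finset.mul_sum]
  rw [Finset.sum_comm]
  refine Finset.sum_congr rfl fun ω' _ => ?_
  rcases (hp ω').eq_or_lt with h0 | h0
  · rw [← h0, zero_mul]
    refine Finset.sum_eq_zero fun ω _ => ?_
    unfold Pool.Agent.H49.Ent.cond
    split_ifs
    · rw [← h0]
      ring
    · ring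
  have hl : 0 < law p U (U ω') := law_pos hp U h0
  have h2 : ∀ ω, p ω * (cond p U (U ω) ω' * f ω (S ω')) =
      (if U ω = U ω' then p ω else 0) * (p ω' / law p U (U ω') * f ω' (S ω')) := by
    intro ω
    rcases (hp ω).eq_or_lt with h3 | h3
    · rw [← h3]
      simp
    · unfold Pool.Agent.H49.Ent.cond
      by_cases h4 : U ω = U ω'
      · rw [if_pos h4.symm, if_pos h4, h4, hd ω ω' h3 h0 h4]
      · rw [if_neg (fun h => h4 h.symm), if_neg h4]
        ring
  simp_rw [h2]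
  rw [← Finset.sum_mul]
  have h3 : ∑ ω, (if U ω = U ω' then p ω else 0) = law p U (U ω') := rfl
  rw [h3]
  field_simp

theorem ch_nu {p : Ω → ℝ} (hp : ∀ ω, 0 ≤ p ω) (S : Ω → ℕ) (U : Ω → 𝒰) :
    CH p S U = Ex p (fun ω => -Real.log (nu p S U ω (S ω))) := by
  rw [CH_eq_neg_sum hp]
  simp_rw [nu_eq]

theorem sum_nu {p : Ω → ℝ} (hp : ∀ ω, 0 ≤ p ω) (S : Ω → ℕ) (U : Ω → 𝒰) {G : Finset ℕ}
    (hS : ∀ ω, S ω ∈ G) {ω : Ω} (hω : 0 < p ω) : ∑ s ∈ G, nu p S U ω s = 1 := by
  classical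
  have h1 := sum_cond p U (law_pos hp U hω).ne'
  rw [← h1]
  unfold nu law
  rw [Finset.sum_comm]
  refine Finset.sum_congr rfl fun ω' _ => ?_
  rw [Finset.sum_eq_single (S ω')]
  · rw [if_pos rfl]
  · intro s _ hs
    rw [if_neg (fun h => hs h.symm)]
  · intro h
    exact absurd (hS ω') h

theorem det_nu {p : Ω → ℝ} (S : Ω → ℕ) (U : Ω → 𝒰) : Det p U (nu p S U) := by
  intro ω ω' _ _ h
  funext s
  unfold nu
  rw [h]

/-- The elementary inequality. -/
theorem pw {a b ρ : ℝ} (ha : 0 < a) (hb : 0 < b) (hρ : 0 < ρ) :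
    max (a - b) 0 ≤ ρ * a + (a * (Real.log a - Real.log b) - a + b) / ρ := by
  have h1 : 0 ≤ a * (Real.log a - Real.log b) - a + b := by
    have h2 := Real.log_le_sub_one_of_pos (div_pos hb ha)
    rw [Real.log_div hb.ne' ha.ne'] at h2
    have h3 : a * (Real.log b - Real.log a) ≤ a * (b / a - 1) := mul_le_mul_of_nonneg_left h2 ha.le
    have h4 : a * (b / a - 1) = b - a := by
      field_simp
    linarith
  rcases le_total a b with h | h
  · rw [max_eq_right (by linarith)]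
    positivity
  · rw [max_eq_left (by linarith)]
    -- the quadratic bound
    obtain ⟨x, hx⟩ : ∃ x, x = b / a := ⟨_, rfl⟩
    have hx0 : 0 < x := by rw [hx]; positivity
    have hx1 : x ≤ 1 := by
      rw [hx, div_le_one ha]
      exact h
    have hbx : b = x * a := by
      rw [hx]
      field_simp
    have h3 : (1 - x) ^ 2 / 4 ≤ -Real.log x - 1 + x := by
      obtain ⟨y, hy⟩ : ∃ y, y = Real.sqrt x := ⟨_, rfl⟩
      have hy0 : 0 < y := by rw [hy]; exact Real.sqrt_pos.2 hx0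
      have hyx : x = y ^ 2 := by rw [hy, Real.sq_sqrt hx0.le]
      have hy1 : y ≤ 1 := by
        rw [hy, Real.sqrt_le_one]
        exact hx1
      have h4 := Real.log_le_sub_one_of_pos hy0
      have h5 : Real.log x = 2 * Real.log y := by
        rw [hyx, Real.log_pow]
        norm_num
      rw [h5, hyx]
      nlinarith [sq_nonneg (1 - y), mul_nonneg (sq_nonneg (1 - y)) (by nlinarith :
        (0 : ℝ) ≤ 4 - (1 + y) ^ 2)]
    have h5 : Real.log a - Real.log b = -Real.log x := by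
      rw [hx, Real.log_div hb.ne' ha.ne']
      ring
    have h7 : a * -Real.log x - a + b = a * (-Real.log x - 1 + x) := by
      rw [hbx]
      ring
    rw [h5, h7]
    have h8 : a * ((1 - x) ^ 2 / 4) / ρ ≤ a * (-Real.log x - 1 + x) / ρ :=
      div_le_div_of_nonneg_right (mul_le_mul_of_nonneg_left h3 ha.le) hρ.le
    have h9 : ρ * a + a * ((1 - x) ^ 2 / 4) / ρ - (a - b) =
        a * (ρ - (1 - x) / 2) ^ 2 / ρ := by
      rw [hbx]
      field_simp
      ring
    have h10 : 0 ≤ a * (ρ - (1 - x) / 2) ^ 2 / ρ := by positivity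
    linarith

/-- A kernel on a finite set of values. -/
structure Kn (p : Ω → ℝ) (S : Ω → ℕ) (U : Ω → 𝒰) (G : Finset ℕ) (k : Ω → ℕ → ℝ) : Prop where
  law : IsLaw p
  mem : ∀ ω, S ω ∈ G
  det : Det p U k
  nonneg : ∀ ω s, 0 ≤ k ω s
  pos : ∀ ω, 0 < p ω → 0 < k ω (S ω)
  sum : ∀ ω, 0 < p ω → ∑ s ∈ G, k ω s ≤ 1

variable {p : Ω → ℝ} {S : Ω → ℕ} {U : Ω → 𝒰} {G : Finset ℕ} {k : Ω → ℕ → ℝ}

/-- The total variation is controlled by the relative entropy. -/
theorem Kn.tv (h : Kn p S U G k) {ρ : ℝ} (hρ : 0 < ρ) :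
    Ex p (fun ω => ∑ s ∈ G, max (nu p S U ω s - k ω s) 0) ≤
      ρ + (Ex p (fun ω => -Real.log (k ω (S ω))) - CH p S U) / ρ := by
  have hp := h.law.nonneg
  have h1 : Ex p (fun ω => ∑ s ∈ G, max (nu p S U ω s - k ω s) 0) ≤
      Ex p (fun ω => ρ + (∑ s ∈ G, nu p S U ω s *
        (Real.log (nu p S U ω s) - Real.log (k ω s))) / ρ) := by
    refine Ex_mono hp fun ω hω => ?_
    have h2 : ∀ s ∈ G, max (nu p S U ω s - k ω s) 0 ≤ ρ * nu p S U ω s +
        (nu p S U ω s * (Real.log (nu p S U ω s) - Real.log (k ω s)) - nu p S U ω s +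
          k ω s) / ρ := by
      intro s _
      rcases (nu_nonneg hp S U ω s).eq_or_lt with h3 | h3
      · rw [← h3]
        have h4 : (0 : ℝ) - k ω s ≤ 0 := by linarith [h.nonneg ω s]
        rw [max_eq_right h4]
        have h5 : ρ * 0 + (0 * (Real.log 0 - Real.log (k ω s)) - 0 + k ω s) / ρ = k ω s / ρ := by
          ring
        rw [h5]
        exact div_nonneg (h.nonneg ω s) hρ.le
      · obtain ⟨ω', hω', hU, hS⟩ := nu_occ hp S U h3
        have h4 : 0 < k ω s := by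
          have h5 := h.pos ω' hω'
          rw [h.det ω' ω hω' hω hU, hS] at h5
          exact h5
        exact pw h3 h4 hρ
    refine (Finset.sum_le_sum h2).trans ?_
    rw [Finset.sum_add_distrib, ← Finset.mul_sum, ← Finset.sum_div, Finset.sum_add_distrib,
      Finset.sum_sub_distrib, sum_nu hp S U h.mem hω, mul_one]
    refine add_le_add_right (div_le_div_of_nonneg_right ?_ hρ.le) _
    linarith [h.sum ω hω]
  refine h1.trans (le_of_eq ?_)
  have h3 : Ex p (fun ω => ∑ s ∈ G, nu p S U ω s *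
      (Real.log (nu p S U ω s) - Real.log (k ω s))) =
      Ex p (fun ω => Real.log (nu p S U ω (S ω)) - Real.log (k ω (S ω))) := by
    refine tower hp S U h.mem (f := fun ω s => Real.log (nu p S U ω s) - Real.log (k ω s)) ?_
    intro ω ω' hω hω' he
    have e1 : nu p S U ω = nu p S U ω' := det_nu S U ω ω' hω hω' he
    have e2 := h.det ω ω' hω hω' he
    simp only [e1, e2]
  have h4 : Ex p (fun ω => ρ + (∑ s ∈ G, nu p S U ω s *
        (Real.log (nu p S U ω s) - Real.log (k ω s))) / ρ) =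
      ρ + Ex p (fun ω => ∑ s ∈ G, nu p S U ω s *
        (Real.log (nu p S U ω s) - Real.log (k ω s))) / ρ := by
    unfold Ex
    simp_rw [mul_add, Finset.sum_add_distrib]
    rw [← Finset.sum_mul, h.law.sum_one, one_mul, Finset.sum_div]
    simp_rw [mul_div_assoc]
  rw [h4, h3, ch_nu hp]
  congr 2
  unfold Ex
  rw [← Finset.sum_sub_distrib]
  refine Finset.sum_congr rfl fun ω _ => ?_
  ring

open Classical in
/-- The mass of the value and its neighbours. -/
noncomputable def nb (G : Finset ℕ) (k : Ω → ℕ → ℝ) (ω : Ω) (s : ℕ) : ℝ :=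
  ∑ s' ∈ G, if s' ≤ s + 1 ∧ s ≤ s' + 1 then k ω s' else 0

omit [Fintype Ω] in
theorem nb_nonneg (h : ∀ ω s, 0 ≤ k ω s) (ω : Ω) (s : ℕ) : 0 ≤ nb G k ω s := by
  unfold nb
  refine Finset.sum_nonneg fun s' _ => ?_
  split_ifs
  · exact h ω s'
  · exact le_rfl

omit [Fintype Ω] in
theorem nb_le (h : ∀ ω s, 0 ≤ k ω s) (ω : Ω) (s : ℕ) : nb G k ω s ≤ ∑ s ∈ G, k ω s := by
  unfold nb
  refine Finset.sum_le_sum fun s' _ => ?_
  split_ifs
  · exact le_rfl
  · exact h ω s'

omit [Fintype Ω] in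
theorem nb_sq (ω : Ω) :
    ∑ s ∈ G, k ω s * nb G k ω s ≤ 3 * ∑ s ∈ G, k ω s ^ 2 := by
  classical
  have h1 : ∑ s ∈ G, k ω s * nb G k ω s ≤ ∑ s ∈ G, ∑ s' ∈ G,
      ((if s' ≤ s + 1 ∧ s ≤ s' + 1 then k ω s ^ 2 / 2 else 0) +
        (if s' ≤ s + 1 ∧ s ≤ s' + 1 then k ω s' ^ 2 / 2 else 0)) := by
    refine Finset.sum_le_sum fun s _ => ?_
    unfold nb
    rw [Finset.mul_sum]
    refine Finset.sum_le_sum fun s' _ => ?_
    split_ifs
    · nlinarith [sq_nonneg (k ω s - k ω s')]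
    · simp
  refine h1.trans ?_
  simp_rw [Finset.sum_add_distrib]
  have h2 : ∀ s : ℕ, ∑ s' ∈ G, (if s' ≤ s + 1 ∧ s ≤ s' + 1 then k ω s ^ 2 / 2 else 0) ≤
      3 * (k ω s ^ 2 / 2) := by
    intro s
    rw [← Finset.sum_filter, Finset.sum_const, nsmul_eq_mul]
    refine mul_le_mul_of_nonneg_right ?_ (by positivity)
    have h3 : (G.filter fun s' => s' ≤ s + 1 ∧ s ≤ s' + 1) ⊆ Finset.Icc (s - 1) (s + 1) := by
      intro x hx
      have := (Finset.mem_filter.1 hx).2
      rw [Finset.mem_Icc]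
      omega
    have h4 := Finset.card_le_card h3
    rw [Nat.card_Icc] at h4
    have h5 : (G.filter fun s' => s' ≤ s + 1 ∧ s ≤ s' + 1).card ≤ 3 := by omega
    exact_mod_cast h5
  have h3 : ∑ s ∈ G, ∑ s' ∈ G, (if s' ≤ s + 1 ∧ s ≤ s' + 1 then k ω s' ^ 2 / 2 else 0) ≤
      ∑ s ∈ G, 3 * (k ω s ^ 2 / 2) := by
    rw [Finset.sum_comm]
    refine Finset.sum_le_sum fun s' _ => ?_
    refine le_trans (le_of_eq ?_) (h2 s')
    refine Finset.sum_congr rfl fun s _ => ?_
    refine if_congr ?_ rfl rfl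
    exact and_comm
  have h4 := Finset.sum_le_sum fun s (_ : s ∈ G) => h2 s
  refine (add_le_add h4 h3).trans (le_of_eq ?_)
  rw [← Finset.mul_sum, ← Finset.sum_div]
  ring

/-- **The neighbours.** -/
theorem Kn.nbr (h : Kn p S U G k) {ρ : ℝ} (hρ : 0 < ρ) :
    Ex p (fun ω => nb G k ω (S ω)) ≤ 3 * Ex p (fun ω => k ω (S ω)) +
      4 * (ρ + (Ex p (fun ω => -Real.log (k ω (S ω))) - CH p S U) / ρ) := by
  have hp := h.law.nonneg
  have htv := h.tv hρ
  have h1 : Ex p (fun ω => nb G k ω (S ω)) = Ex p (fun ω => ∑ s ∈ G, nu p S U ω s * nb G k ω s) := by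
    refine (tower hp S U h.mem ?_).symm
    intro ω ω' hω hω' he
    funext s
    unfold nb
    rw [h.det ω ω' hω hω' he]
  have h2 : Ex p (fun ω => k ω (S ω)) = Ex p (fun ω => ∑ s ∈ G, nu p S U ω s * k ω s) :=
    (tower hp S U h.mem h.det).symm
  have h3 : Ex p (fun ω => ∑ s ∈ G, nu p S U ω s * nb G k ω s) ≤
      Ex p (fun ω => 3 * (∑ s ∈ G, nu p S U ω s * k ω s) +
        4 * ∑ s ∈ G, max (nu p S U ω s - k ω s) 0) := by
    refine Ex_mono hp fun ω hω => ?_
    have hs := h.sum ω hω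
    have hk1 : ∀ s ∈ G, k ω s ≤ 1 := fun s hs' =>
      (Finset.single_le_sum (f := fun s => k ω s) (fun s _ => h.nonneg ω s) hs').trans hs
    have hnb1 : ∀ s, nb G k ω s ≤ 1 := fun s => (nb_le h.nonneg ω s).trans hs
    have a1 : ∑ s ∈ G, nu p S U ω s * nb G k ω s ≤ ∑ s ∈ G, k ω s * nb G k ω s +
        ∑ s ∈ G, max (nu p S U ω s - k ω s) 0 := by
      rw [← Finset.sum_add_distrib]
      refine Finset.sum_le_sum fun s _ => ?_
      have b1 : nu p S U ω s - k ω s ≤ max (nu p S U ω s - k ω s) 0 := le_max_left _ _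
      have b2 : 0 ≤ max (nu p S U ω s - k ω s) 0 := le_max_right _ _
      have b3 := nb_nonneg (G := G) h.nonneg ω s
      have b4 : (nu p S U ω s - k ω s) * nb G k ω s ≤
          max (nu p S U ω s - k ω s) 0 * nb G k ω s := mul_le_mul_of_nonneg_right b1 b3
      have b5 : max (nu p S U ω s - k ω s) 0 * nb G k ω s ≤
          max (nu p S U ω s - k ω s) 0 * 1 := mul_le_mul_of_nonneg_left (hnb1 s) b2
      linarith
    have a2 : ∑ s ∈ G, k ω s ^ 2 ≤ ∑ s ∈ G, nu p S U ω s * k ω s +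
        ∑ s ∈ G, max (k ω s - nu p S U ω s) 0 := by
      rw [← Finset.sum_add_distrib]
      refine Finset.sum_le_sum fun s hs' => ?_
      have b1 : k ω s - nu p S U ω s ≤ max (k ω s - nu p S U ω s) 0 := le_max_left _ _
      have b2 : 0 ≤ max (k ω s - nu p S U ω s) 0 := le_max_right _ _
      have b3 := h.nonneg ω s
      have b4 : (k ω s - nu p S U ω s) * k ω s ≤ max (k ω s - nu p S U ω s) 0 * k ω s :=
        mul_le_mul_of_nonneg_right b1 b3
      have b5 : max (k ω s - nu p S U ω s) 0 * k ω s ≤ max (k ω s - nu p S U ω s) 0 * 1 :=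
        mul_le_mul_of_nonneg_left (hk1 s hs') b2
      nlinarith
    have a3 : ∑ s ∈ G, max (k ω s - nu p S U ω s) 0 ≤
        ∑ s ∈ G, max (nu p S U ω s - k ω s) 0 := by
      have b1 : ∑ s ∈ G, max (k ω s - nu p S U ω s) 0 =
          ∑ s ∈ G, (max (nu p S U ω s - k ω s) 0 + (k ω s - nu p S U ω s)) := by
        refine Finset.sum_congr rfl fun s _ => ?_
        rcases le_total (k ω s) (nu p S U ω s) with b | b
        · rw [max_eq_right (by linarith), max_eq_left (by linarith)]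
          ring
        · rw [max_eq_left (by linarith), max_eq_right (by linarith)]
          ring
      rw [b1, Finset.sum_add_distrib, Finset.sum_sub_distrib, sum_nu hp S U h.mem hω]
      linarith
    have a4 := nb_sq (G := G) (k := k) ω
    linarith
  have h4 : Ex p (fun ω => 3 * (∑ s ∈ G, nu p S U ω s * k ω s) +
        4 * ∑ s ∈ G, max (nu p S U ω s - k ω s) 0) =
      3 * Ex p (fun ω => ∑ s ∈ G, nu p S U ω s * k ω s) +
        4 * Ex p (fun ω => ∑ s ∈ G, max (nu p S U ω s - k ω s) 0) := by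
    unfold Ex
    rw [Finset.mul_sum, Finset.mul_sum, ← Finset.sum_add_distrib]
    refine Finset.sum_congr rfl fun ω _ => ?_
    ring
  rw [h1, h2]
  linarith

end Pool.KA.Nbr
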