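import Pool.Agent.H40.TG.NbrA
import Pool.Agent.H40.TG.LIV

/-!
# Kernels and neighbours for one window
-/

set_option autoImplicit false

namespace Pool.KA.Nbr

open Finset Real
open Pool.Agent.H49.Ent Pool.Agent.H32.Dense Pool.STK

variable {m J : ℕ}

/-- The conditional kernel of the next `L` digits. -/
noncomputable def kk (F : Fam m J) (μ : F.Ω → ℕ → ℝ) (v L : ℕ) (ω : F.Ω) (s : ℕ) : ℝ :=
  if s / 2 ^ L = F.T1 v ω then lowk (μ ω) (J - (v + L)) s / pm (μ ω) J v (F.T ω) else 0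

theorem kk_T (F : Fam m J) (μ : F.Ω → ℕ → ℝ) {v L : ℕ} (hv : v + L ≤ J) (ω : F.Ω) :
    kk F μ v L ω (F.T1 (v + L) ω) = pm (μ ω) J (v + L) (F.T ω) / pm (μ ω) J v (F.T ω) := by
  unfold kk
  have h := F.T1_T1 (Nat.le_add_right v L) hv ω
  rw [Nat.add_sub_cancel_left] at h
  rw [if_pos h]
  rfl

theorem kn (F : Fam m J) {μ : F.Ω → ℕ → ℝ} (hK : F.Ker μ) {v L : ℕ} (hv : v + L ≤ J) :
    Kn F.p (F.T1 (v + L)) (fun ω => (F.T1 v ω, (F.l ω, F.Z ω))) (range (2 ^ (v + L)))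
      (kk F μ v L) where
  law := F.isLaw
  mem := by
    intro ω
    rw [Finset.mem_range, F.T1_eq, Nat.div_lt_iff_lt_mul (by positivity), ← pow_add]
    have e : v + L + (J - (v + L)) = J := by omega
    rw [e]
    exact F.tim ω
  det := by
    intro ω ω' hω hω' he
    have e1 : F.T1 v ω = F.T1 v ω' := (Prod.ext_iff.mp he).1
    have e2 : μ ω = μ ω' := hK.det ω ω' hω hω' (Prod.ext_iff.mp he).2
    have e3 : pm (μ ω) J v (F.T ω) = pm (μ ω') J v (F.T ω') := by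
      rw [e2]
      exact pm_congr _ _ _ e1
    funext s
    unfold kk
    rw [e3, e1, e2]
  nonneg := by
    intro ω s
    unfold kk
    split_ifs
    · exact div_nonneg (lowk_nonneg (hK.nonneg ω) _ _) (pm_nonneg (hK.nonneg ω) _ _ _)
    · exact le_rfl
  pos := by
    intro ω hω
    rw [kk_T F μ hv]
    exact div_pos (hK.pm_pos hω _) (hK.pm_pos hω v)
  sum := by
    classical
    intro ω hω
    unfold kk
    rw [← Finset.sum_filter, ← Finset.sum_div, div_le_one (hK.pm_pos hω v)]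
    have hpme := pm_split (μ ω) J (F.T ω) (Nat.le_add_right v L) hv
    rw [Nat.add_sub_cancel_left] at hpme
    rw [hpme]
    have hsub : (range (2 ^ (v + L))).filter (fun s => s / 2 ^ L = F.T1 v ω) ⊆
        (range (2 ^ L)).image (fun i => F.T ω / 2 ^ (J - v) * 2 ^ L + i) := by
      intro s hs
      have h2 := (Finset.mem_filter.1 hs).2
      refine Finset.mem_image.2 ⟨s % 2 ^ L, Finset.mem_range.2
        (Nat.mod_lt _ (by positivity)), ?_⟩
      have h3 : F.T ω / 2 ^ (J - v) = s / 2 ^ L := h2.symm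
      rw [h3]
      exact Nat.div_add_mod' _ _
    refine (Finset.sum_le_sum_of_subset_of_nonneg hsub
      fun s _ _ => lowk_nonneg (hK.nonneg ω) _ _).trans (le_of_eq ?_)
    rw [Finset.sum_image]
    intro i _ j _ hij
    simpa using hij

theorem pn_le_nb (F : Fam m J) {μ : F.Ω → ℕ → ℝ} (hK : F.Ker μ) {v L : ℕ} (hv : v + L ≤ J)
    (ω : F.Ω) : pn (μ ω) J v L (F.T ω) / pm (μ ω) J v (F.T ω) ≤
      nb (range (2 ^ (v + L))) (kk F μ v L) ω (F.T1 (v + L) ω) := by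
  classical
  unfold pn nb
  rw [Finset.sum_div]
  have h1 : ∀ j ∈ range (2 ^ L), (if F.T ω / 2 ^ (J - v) * 2 ^ L + j ≤
      F.T ω / 2 ^ (J - (v + L)) + 1 ∧ F.T ω / 2 ^ (J - (v + L)) ≤
      F.T ω / 2 ^ (J - v) * 2 ^ L + j + 1 then
      lowk (μ ω) (J - (v + L)) (F.T ω / 2 ^ (J - v) * 2 ^ L + j) else 0) /
      pm (μ ω) J v (F.T ω) = (fun s' => if s' ≤ F.T1 (v + L) ω + 1 ∧ F.T1 (v + L) ω ≤ s' + 1 then
        kk F μ v L ω s' else 0) (F.T ω / 2 ^ (J - v) * 2 ^ L + j) := by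
    intro j hj
    have hj' := Finset.mem_range.1 hj
    have e1 : (F.T ω / 2 ^ (J - v) * 2 ^ L + j) / 2 ^ L = F.T1 v ω := by
      rw [Nat.add_comm, Nat.add_mul_div_right _ _ (by positivity), Nat.div_eq_of_lt hj', zero_add]
      rfl
    simp only
    by_cases hc : F.T ω / 2 ^ (J - v) * 2 ^ L + j ≤ F.T ω / 2 ^ (J - (v + L)) + 1 ∧
        F.T ω / 2 ^ (J - (v + L)) ≤ F.T ω / 2 ^ (J - v) * 2 ^ L + j + 1
    · have hc' : F.T ω / 2 ^ (J - v) * 2 ^ L + j ≤ F.T1 (v + L) ω + 1 ∧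
        F.T1 (v + L) ω ≤ F.T ω / 2 ^ (J - v) * 2 ^ L + j + 1 := hc
      rw [if_pos hc, if_pos hc']
      unfold kk
      rw [if_pos e1]
    · have hc' : ¬ (F.T ω / 2 ^ (J - v) * 2 ^ L + j ≤ F.T1 (v + L) ω + 1 ∧
        F.T1 (v + L) ω ≤ F.T ω / 2 ^ (J - v) * 2 ^ L + j + 1) := hc
      rw [if_neg hc, if_neg hc', zero_div]
  rw [Finset.sum_congr rfl h1]
  have h2 : ∑ j ∈ range (2 ^ L), (fun s' => if s' ≤ F.T1 (v + L) ω + 1 ∧
      F.T1 (v + L) ω ≤ s' + 1 then kk F μ v L ω s' else 0) (F.T ω / 2 ^ (J - v) * 2 ^ L + j) =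
      ∑ s' ∈ (range (2 ^ L)).image (fun j => F.T ω / 2 ^ (J - v) * 2 ^ L + j),
        (fun s' => if s' ≤ F.T1 (v + L) ω + 1 ∧ F.T1 (v + L) ω ≤ s' + 1 then
          kk F μ v L ω s' else 0) s' := by
    rw [Finset.sum_image]
    intro i _ j _ hij
    simpa using hij
  rw [h2]
  refine Finset.sum_le_sum_of_subset_of_nonneg ?_ ?_
  · intro s hs
    obtain ⟨j, hj, rfl⟩ := Finset.mem_image.1 hs
    have hj' := Finset.mem_range.1 hj
    rw [Finset.mem_range, pow_add]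
    have h3 : F.T ω / 2 ^ (J - v) < 2 ^ v := by
      rw [Nat.div_lt_iff_lt_mul (by positivity), ← pow_add]
      have e : v + (J - v) = J := by omega
      rw [e]
      exact F.tim ω
    calc F.T ω / 2 ^ (J - v) * 2 ^ L + j < F.T ω / 2 ^ (J - v) * 2 ^ L + 2 ^ L := by omega
      _ = (F.T ω / 2 ^ (J - v) + 1) * 2 ^ L := by ring
      _ ≤ 2 ^ v * 2 ^ L := Nat.mul_le_mul_right _ h3
  · intro s _ _
    split_ifs
    · exact (kn F hK hv).nonneg ω s
    · exact le_rfl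

/-- **The neighbours, for one window.** -/
theorem one_win (F : Fam m J) {μ : F.Ω → ℕ → ℝ} (hK : F.Ker μ) {v L : ℕ} (hv : v + L ≤ J)
    {ρ : ℝ} (hρ : 0 < ρ) :
    Ex F.p (fun ω => pn (μ ω) J v L (F.T ω) / pm (μ ω) J v (F.T ω)) ≤
      3 * Ex F.p (fun ω => pm (μ ω) J (v + L) (F.T ω) / pm (μ ω) J v (F.T ω)) +
      4 * (ρ + (F.klv μ (v + L) - F.klv μ v) / ρ) := by
  have h1 := (kn F hK hv).nbr hρ
  have h2 := hK.klv_le (Nat.le_add_right v L) hv
  have h3 : Ex F.p (fun ω => pn (μ ω) J v L (F.T ω) / pm (μ ω) J v (F.T ω)) ≤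
      Ex F.p (fun ω => nb (range (2 ^ (v + L))) (kk F μ v L) ω (F.T1 (v + L) ω)) :=
    Ex_mono F.isLaw.nonneg fun ω _ => pn_le_nb F hK hv ω
  simp_rw [kk_T F μ hv] at h1
  have h4 : Ex F.p (fun ω => -Real.log (pm (μ ω) J (v + L) (F.T ω) / pm (μ ω) J v (F.T ω))) -
      CH F.p (F.T1 (v + L)) (fun ω => (F.T1 v ω, (F.l ω, F.Z ω))) =
      F.klv μ (v + L) - F.klv μ v := by
    linarith
  rw [h4] at h1
  exact h3.trans h1

end Pool.KA.Nbr
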